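import Pool.Agent.V11322.NC.Base

/-!
# The noncommutative conjecture `C^+` and errors of small rank

Let `𝒜` be a smooth proper dg category over a perfect field, `K` the coefficient field of its
cohomology (`K = k` if `p = 0` and `K = W(k)[1/p]` if `p > 0`) and `V = V_+ ⊕ V_-` the cohomology:
`HP_±(𝒜)` if `p = 0`, and `TP_±(𝒜)[1/p]` if `p > 0`. We use the following data of `𝒜`
(`SmoothProper`): the algebra `Corr = K_0(𝒜^op ⊗ 𝒜)_ℚ` of the endomorphisms of `U(𝒜)_ℚ`, its actions
on `Plus = V_+` and `Minus = V_-`, and the formula for supertraces: the supertrace of `z` is a rational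
number `euler z`, the trace of the endomorphism `z` of the dualizable object `U(𝒜)_ℚ`, which is mapped
to the supertrace by every symmetric monoidal functor.

Let `𝒜^N` be the product of `N` copies of `𝒜`, again a smooth proper dg category. Its correspondences
are the `N × N` matrices of correspondences of `𝒜`, and its cohomology is `V^N`. We prove that the
following are equivalent:

1. `C^+_nc(𝒜)`: the even projector is induced by a correspondence with rational coefficients;
2. the even projector is a `K`-linear combination of operators of correspondences;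
3. for one `N`, the even projector of `𝒜^N` agrees with a `K`-linear combination of correspondences
of `𝒜^N` up to an operator of rank `r` with `r dim V < N`;
4. the same for all `N`, up to operators whose rank is bounded independently of `N`;
5. the same for all large `N`, up to operators of rank at most `ε N`, for each `ε > 0`.

So `C^+_nc` can be tested up to errors of rank `o(N)` on the powers `𝒜^N`. The proof: a linear form on
`End(V)` which vanishes on the combinations, but not on the even projector, maps the error to an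
invertible `N × N` matrix, of rank at most `r dim V`. The descent from combinations to rational
coefficients (2 to 1) is the one of `MP_eadf0f_ag.PointwiseParity` and of the module `TH133.PW`.
-/

set_option autoImplicit false

open Module

universe u v

namespace Pool.Agent.Results.MP_8f22fa_ag.SmallRankErrors

open Pool.Agent.V11322.NC (SmoothProper op projPlus combinations opN projN combN)

section lin

variable {K : Type u} [Field K] {V : Type v} [AddCommGroup V] [Module K V]

/-- the operator on `V^N` given by an `N × N` matrix of operators on `V` -/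
def blockOp (N : ℕ) (z : Fin N → Fin N → End K V) : End K (Fin N → V) :=
  LinearMap.pi fun i => ∑ j, (z i j).comp (LinearMap.proj j)

/-- the operator `p` on each of the `N` summands of `V^N` -/
def diagOp (N : ℕ) (p : End K V) : End K (Fin N → V) :=
  LinearMap.pi fun i => p.comp (LinearMap.proj i)

/-- the `K`-linear combinations of the operators on `V^N` given by matrices with entries in `S` -/
def blockSpan (N : ℕ) (S : Set (End K V)) : Submodule K (End K (Fin N → V)) :=
  Submodule.span K {F | ∃ z : Fin N → Fin N → End K V, (∀ i j, z i j ∈ S) ∧ F = blockOp N z}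

/-- the rank of the difference of `p` (on each summand of `V^N`) and `F` -/
noncomputable def errorRank (N : ℕ) (p : End K V) (F : End K (Fin N → V)) : ℕ :=
  finrank K (LinearMap.range (diagOp N p - F))

/-- for one `N`, `p` agrees with a combination up to rank `r` with `r dim V < N` -/
def OnePowerFor (S : Set (End K V)) (p : End K V) : Prop :=
  ∃ N, ∃ F ∈ blockSpan N S, finrank K V * errorRank N p F < N

/-- for all `N`, up to bounded rank -/
def BoundedFor (S : Set (End K V)) (p : End K V) : Prop :=
  ∃ B, ∀ N, ∃ F ∈ blockSpan N S, errorRank N p F ≤ B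

/-- up to rank `ε N`, for all `ε > 0` and all large `N` -/
def SublinearFor (S : Set (End K V)) (p : End K V) : Prop :=
  ∀ ε : ℝ, 0 < ε → ∃ N₀, ∀ N, N₀ ≤ N → ∃ F ∈ blockSpan N S, (errorRank N p F : ℝ) ≤ ε * N

end lin

variable {K : Type u} [Field K]

/-- 1: `C^+_nc(𝒜)`: the even projector is induced by a correspondence with rational coefficients -/
def CPlus (𝒜 : SmoothProper.{u, v} K) : Prop := ∃ z, op 𝒜 z = projPlus 𝒜

/-- 3: for one `N`, the even projector of `𝒜^N` agrees with a combination of correspondences up to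
rank `r` with `r dim V < N` -/
def OnePower (𝒜 : SmoothProper.{u, v} K) : Prop := OnePowerFor (Set.range (op 𝒜)) (projPlus 𝒜)

/-- 4: for all `N`, up to bounded rank -/
def BoundedErrors (𝒜 : SmoothProper.{u, v} K) : Prop := BoundedFor (Set.range (op 𝒜)) (projPlus 𝒜)

/-- 5: up to rank `ε N`, for all `ε > 0` and all large `N` -/
def SublinearErrors (𝒜 : SmoothProper.{u, v} K) : Prop :=
  SublinearFor (Set.range (op 𝒜)) (projPlus 𝒜)

theorem span_eq (𝒜 : SmoothProper.{u, v} K) (N : ℕ) :
    blockSpan N (Set.range (op 𝒜)) = combN 𝒜 N := by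
  apply le_antisymm
  · refine Submodule.span_mono ?_
    rintro _ ⟨z, hz, rfl⟩
    choose w hw using hz
    refine ⟨w, ?_⟩
    have : z = fun i j => op 𝒜 (w i j) := by
      funext i j
      exact (hw i j).symm
    rw [this]
    rfl
  · refine Submodule.span_mono ?_
    rintro _ ⟨z, rfl⟩
    exact ⟨fun i j => op 𝒜 (z i j), fun i j => ⟨_, rfl⟩, rfl⟩

theorem result {K : Type u} [Field K] [CharZero K] (𝒜 : SmoothProper.{u, v} K) :
    [CPlus 𝒜, projPlus 𝒜 ∈ combinations 𝒜, OnePower 𝒜, BoundedErrors 𝒜, SublinearErrors 𝒜].TFAE := by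
  tfae_have 1 → 4 := by
    intro h
    refine ⟨0, fun N => ⟨projN 𝒜 N, ?_, ?_⟩⟩
    · rw [span_eq]
      exact Pool.Agent.V11322.NC.projN_mem 𝒜 h N
    · show finrank K (LinearMap.range (projN 𝒜 N - projN 𝒜 N)) ≤ 0
      rw [sub_self, LinearMap.range_zero, finrank_bot]
  tfae_have 4 → 5 := by
    rintro ⟨B, hB⟩ ε hε
    obtain ⟨N₀, hN₀⟩ := exists_nat_gt ((B : ℝ) / ε)
    refine ⟨N₀, fun N hN => ?_⟩
    obtain ⟨F, hF, hr⟩ := hB N
    refine ⟨F, hF, ?_⟩
    have h1 : (errorRank N (projPlus 𝒜) F : ℝ) ≤ B := by exact_mod_cast hr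
    have h2 : (N₀ : ℝ) ≤ N := by exact_mod_cast hN
    have h3 : (B : ℝ) < ε * N₀ := by
      have := (div_lt_iff₀ hε).1 hN₀
      linarith
    nlinarith
  tfae_have 5 → 3 := by
    intro h
    set d := finrank K (𝒜.Plus × 𝒜.Minus) with hd
    obtain ⟨N₀, hN₀⟩ := h (1 / (2 * ((d : ℝ) + 1))) (by positivity)
    obtain ⟨F, hF, hr⟩ := hN₀ (N₀ + 1) (Nat.le_succ _)
    refine ⟨N₀ + 1, F, hF, ?_⟩
    have hdpos : (0 : ℝ) < (d : ℝ) + 1 := by positivity
    have h1 : (d : ℝ) * (errorRank (N₀ + 1) (projPlus 𝒜) F : ℝ) < ((N₀ + 1 : ℕ) : ℝ) := by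
      have h2 : (d : ℝ) * (errorRank (N₀ + 1) (projPlus 𝒜) F : ℝ) ≤
          (d : ℝ) * (1 / (2 * ((d : ℝ) + 1)) * ((N₀ + 1 : ℕ) : ℝ)) :=
        mul_le_mul_of_nonneg_left hr (Nat.cast_nonneg _)
      have h3 : (d : ℝ) * (1 / (2 * ((d : ℝ) + 1)) * ((N₀ + 1 : ℕ) : ℝ)) =
          ((d : ℝ) / ((d : ℝ) + 1)) * (((N₀ + 1 : ℕ) : ℝ) / 2) := by
        field_simp
      have h4 : (d : ℝ) / ((d : ℝ) + 1) ≤ 1 := by
        rw [div_le_one hdpos]
        linarith
      have h5 : (0 : ℝ) < ((N₀ + 1 : ℕ) : ℝ) := by exact_mod_cast Nat.succ_pos N₀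
      have h6 : ((d : ℝ) / ((d : ℝ) + 1)) * (((N₀ + 1 : ℕ) : ℝ) / 2) ≤
          1 * (((N₀ + 1 : ℕ) : ℝ) / 2) := mul_le_mul_of_nonneg_right h4 (by positivity)
      rw [h3] at h2
      linarith
    exact_mod_cast h1
  tfae_have 3 → 2 := by
    rintro ⟨N, F, hF, hr⟩
    rw [span_eq] at hF
    exact Pool.Agent.V11322.NC.mem_of_rank 𝒜 hF hr
  tfae_have 2 → 1 := fun h => (Pool.Agent.V11322.NC.kunneth_of_mem 𝒜 h).1
  tfae_finish

end Pool.Agent.Results.MP_8f22fa_ag.SmallRankErrors
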